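import Pool.Agent.Lib.MP_f44585_an.Digits

set_option autoImplicit false

open Filter

namespace Pool.Agent.Results.MP_f44585_an.AllBases

/-- `blockFreq r x k w N` is the frequency with which the word `w` of length `k` occurs among the
`N` length-`k` blocks starting at the positions `1, ..., N` of the base `r` digits of `x` after the
radix point; the digit at position `m + 1` is `⌊x r^(m+1)⌋ - r ⌊x r^m⌋`. -/
noncomputable def blockFreq (r : ℕ) (x : ℝ) (k : ℕ) (w : Fin k → Fin r) (N : ℕ) : ℝ :=
  (((Finset.range N).filter (fun n => ∀ i : Fin k,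
      ⌊x * (r : ℝ) ^ (n + (i : ℕ) + 1)⌋ - (r : ℤ) * ⌊x * (r : ℝ) ^ (n + (i : ℕ))⌋
        = ((w i : ℕ) : ℤ))).card : ℝ) / (N : ℝ)

/-- `p` is the family of cylinder probabilities `p k w = μ [w]` of a measure `μ` quasi-generated
by the digits of `x`: along some times `N j → ∞` all block frequencies converge to `p`. -/
def QuasiGenerates (r : ℕ) (x : ℝ) (p : ∀ k : ℕ, (Fin k → Fin r) → ℝ) : Prop :=
  ∃ N : ℕ → ℕ, StrictMono N ∧ ∀ (k : ℕ) (w : Fin k → Fin r),
    Tendsto (fun j => blockFreq r x k w (N j)) atTop (nhds (p k w))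

/-- The entropy `inf_k H_k / k` of the shift with cylinder probabilities `p` is zero. -/
def ZeroEntropy (r : ℕ) (p : ∀ k : ℕ, (Fin k → Fin r) → ℝ) : Prop :=
  ∀ ε : ℝ, 0 < ε → ∃ k : ℕ, 1 ≤ k ∧ ∑ w : Fin k → Fin r, Real.negMulLog (p k w) ≤ ε * (k : ℝ)

/-- `x` is deterministic in base `r`: each measure quasi-generated by its digits has entropy zero. -/
def Deterministic (r : ℕ) (x : ℝ) : Prop :=
  ∀ p : (∀ k : ℕ, (Fin k → Fin r) → ℝ), QuasiGenerates r x p → ZeroEntropy r p

open Pool.Agent.Lib.MP_f44585_an in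
/-- In every base `r ≥ 2` and for every irrational `b` there is a deterministic `y` such that
`b * y` quasi-generates the uniform measure; in particular `b * y` is not deterministic. -/
theorem result (r : ℕ) (hr : 2 ≤ r) (b : ℝ) (hb : Irrational b) :
    ∃ y : ℝ, Deterministic r y ∧
      QuasiGenerates r (b * y) (fun k _ => 1 / (r : ℝ) ^ k) ∧ ¬ Deterministic r (b * y) := by
  obtain ⟨S, N, hN, hS, hF⟩ := exists_sparse hr hb
  have hNpos : ∀ᶠ j in Filter.atTop, 0 < N j := by
    filter_upwards [Filter.eventually_gt_atTop 0] with j hj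
    exact lt_of_le_of_lt (Nat.zero_le _) (hN hj)
  have hF' : ∀ h : ℤ, h ≠ 0 → Filter.Tendsto (fun k => (1 / (N k : ℝ)) *
        ‖∑ n ∈ Finset.range (N k), ec ((h : ℝ) * ((b * num r hr S) * (r : ℝ) ^ n))‖)
        Filter.atTop (nhds 0) := by
    intro h hh
    refine (hF h hh).congr ?_
    intro j
    congr 2
    apply Finset.sum_congr rfl
    intro n _
    congr 1
    ring
  have hgen : QuasiGenerates r (b * num r hr S) (fun k _ => 1 / (r : ℝ) ^ k) := by
    refine ⟨N, hN, ?_⟩
    intro k w
    exact tendsto_cnt hr (b * num r hr S) N hNpos hF' k w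
  refine ⟨num r hr S, ?_, hgen, ?_⟩
  · rintro p ⟨M, hM, hp⟩ ε hε
    refine ⟨1, le_rfl, ?_⟩
    have h1 := (tendsto_entropy_num hr hS).comp hM.tendsto_atTop
    have h2 : Tendsto (fun j => ∑ w : Fin 1 → Fin r, Real.negMulLog (blockFreq r (num r hr S) 1 w (M j)))
        atTop (nhds (∑ w : Fin 1 → Fin r, Real.negMulLog (p 1 w))) := by
      apply tendsto_finsetSum
      intro w _
      exact (Real.continuous_negMulLog.tendsto _).comp (hp 1 w)
    have h3 : ∑ w : Fin 1 → Fin r, Real.negMulLog (p 1 w) = 0 := tendsto_nhds_unique h2 h1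
    rw [h3]
    positivity
  · intro hdet
    have hr1 : (1 : ℝ) < r := by exact_mod_cast (by omega : 1 < r)
    have hlog : 0 < Real.log r := Real.log_pos hr1
    obtain ⟨k, hk, hle⟩ := hdet _ hgen (Real.log r / 2) (by positivity)
    have h2 : ∑ w : Fin k → Fin r, Real.negMulLog (1 / (r : ℝ) ^ k) = k * Real.log r := by
      rw [Finset.sum_const, Finset.card_univ, Fintype.card_fun, Fintype.card_fin, Fintype.card_fin,
        nsmul_eq_mul, Real.negMulLog, one_div, Real.log_inv, Real.log_pow]
      push_cast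
      have : (0 : ℝ) < r := by linarith
      field_simp
    rw [h2] at hle
    have hk' : (1 : ℝ) ≤ k := by exact_mod_cast hk
    nlinarith

end Pool.Agent.Results.MP_f44585_an.AllBases
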